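import Pool.Agent.N869.GK.L.Stm

/-!
# Project GK (helper869), GK/TOR (helper891): the torsion points
-/

set_option autoImplicit false

open scoped Classical

namespace Pool.Agent.N891.GK

open Finset
open Pool.Agent.N869.GK

lemma dot_add {r : ℕ} (x y π : Gr r) : dot (x + y) π = dot x π + dot y π := by
  simp only [dot, Pi.add_apply, add_mul, Finset.sum_add_distrib]

lemma dot_smul {r : ℕ} (c : ZMod 2) (x π : Gr r) : dot (c • x) π = c * dot x π := by
  simp only [dot, Pi.smul_apply, smul_eq_mul, mul_assoc, ← Finset.mul_sum]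

lemma dot_single {r : ℕ} (x : Gr r) (k : Fin r) : dot x (Pi.single k 1) = x k := by
  simp [dot, Pi.single_apply]

lemma add_self2 (x : ZMod 2) : x + x = 0 := by
  revert x
  decide

lemma smul_mem' {r : ℕ} {W : AddSubgroup (Hr r)} {X : Hr r} (hX : X ∈ W) (c : ZMod 2) :
    c • X ∈ W := by
  have h : c = 0 ∨ c = 1 := by
    revert c
    decide
  rcases h with rfl | rfl
  · rw [zero_smul]
    exact W.zero_mem
  · rw [one_smul]
    exact hX

/-- the vector -/
def sv {r : ℕ} (D : Par r) (z : V) : Fin 2 → Gr r :=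
  ![z 0 • (D.ll + D.em) + z 1 • D.aa, z 0 • D.bb + z 1 • D.ll]

lemma dot_sv {r : ℕ} (D : Par r) (z : V) (π : Gr r) (c : Fin 2) :
    dot (sv D z c) π = Dm D π z c := by
  fin_cases c
  · change dot (z 0 • (D.ll + D.em) + z 1 • D.aa) π =
      dot (D.ll + D.em) π * z 0 + dot D.aa π * z 1
    rw [dot_add, dot_smul, dot_smul]
    ring
  · change dot (z 0 • D.bb + z 1 • D.ll) π = dot D.bb π * z 0 + dot D.ll π * z 1
    rw [dot_add, dot_smul, dot_smul]
    ring

theorem t_TOR : S_TOR := by
  intro r D hD R lab N T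
  refine ⟨fun hlab z => ?_, fun hall s z hrow => ?_⟩
  · refine ⟨fun i hi => ?_, ?_, fun i hi => ?_⟩
    · change (if i ∈ T then z else 0) = 0
      rw [if_neg hi]
    · change Xl lab T (sv D z) (fun i => if i ∈ T then z else 0) ∈ D.W
      have h1 : Xl lab T (sv D z) (fun i => if i ∈ T then z else 0) =
          z 0 • ((![D.ll + D.em, D.bb], 0) : Hr r) + z 1 • ((![D.aa, D.ll], 0) : Hr r) := by
        refine Prod.ext ?_ ?_
        · funext c
          fin_cases c
          · rfl
          · rfl
        · have h2 : (z 0 • ((![D.ll + D.em, D.bb], 0) : Hr r) +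
              z 1 • ((![D.aa, D.ll], 0) : Hr r)).2 = 0 := by
            change z 0 • (0 : Fin 2 → Gr r) + z 1 • (0 : Fin 2 → Gr r) = 0
            rw [smul_zero, smul_zero, add_zero]
          rw [h2]
          funext c
          change ∑ i ∈ T, (if i ∈ T then z else 0) c • lab i = 0
          have h3 : ∑ i ∈ T, (if i ∈ T then z else (0 : V)) c • lab i = ∑ i ∈ T, z c • lab i :=
            Finset.sum_congr rfl fun i hi => by rw [if_pos hi]
          rw [h3, ← Finset.smul_sum, hlab, smul_zero]
      rw [h1]
      exact D.W.add_mem (smul_mem' hD.t2 _) (smul_mem' hD.t1 _)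
    · funext c
      change dot (sv D z c) (lab i) + ∑ j ∈ T, N i j *
        ((if i ∈ T then z else (0 : V)) c + (if j ∈ T then z else (0 : V)) c) +
        Dm D (lab i) (if i ∈ T then z else 0) c = 0
      have h3 : ∑ j ∈ T, N i j *
          ((if i ∈ T then z else (0 : V)) c + (if j ∈ T then z else (0 : V)) c) = 0 :=
        Finset.sum_eq_zero fun j hj => by rw [if_pos hi, if_pos hj, add_self2, mul_zero]
      rw [h3, if_pos hi, dot_sv, add_zero, add_self2]
  · change s = sv D z
    funext c
    funext k
    obtain ⟨i, hi, hik⟩ := hall (Pi.single k 1)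
    have h1 := congrFun (hrow i hi) c
    change dot (s c) (lab i) + ∑ j ∈ T, N i j * (z c + z c) + Dm D (lab i) z c = 0 at h1
    have h3 : ∑ j ∈ T, N i j * (z c + z c) = 0 :=
      Finset.sum_eq_zero fun j hj => by rw [add_self2, mul_zero]
    rw [h3, add_zero, hik, ← dot_sv, dot_single, dot_single] at h1
    have h4 : s c k + sv D z c k + sv D z c k = sv D z c k := by rw [h1, zero_add]
    rw [add_assoc, add_self2, add_zero] at h4
    exact h4

end Pool.Agent.N891.GK
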